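import Pool.Agent.Helper58.OL.Def
import Pool.Agent.Helper96.DT.BA
import Pool.Agent.Helper98.DP.A1

/-!
# Swarm OLB, part CD
-/

set_option autoImplicit false
set_option linter.all false

open Polynomial Finset DirectSum

namespace Pool.Agent.Helper27.OLB

open Pool.Agent.Helper766_CF Pool.Agent.Helper766_CG Pool.Agent.Helper766_CH
open Pool.Agent.Helper58.CS Pool.Agent.Helper58.OP Pool.Agent.Helper58.SH Pool.Agent.Helper58.BG
open Pool.Agent.Helper58.LC Pool.Agent.Helper58.NS Pool.Agent.Helper58.DP Pool.Agent.Helper58.OL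

variable {R : Type} [CommRing R] [Algebra ℂ R] {𝒜 : ℕ → Submodule ℂ R} [GradedAlgebra 𝒜]
  {br : R →ₗ[ℂ] R →ₗ[ℂ] R} {k : Type} [Field k] [Algebra ℂ k]

/-- The image of a point whose kernel contains a prime `p` and an element `a` not divisible by `p`
has a Noether normalization with at most `N - 2` variables. -/
lemma norm_two [IsDomain R] (hfg : Algebra.FiniteType ℂ R) {N : ℕ} (hdim : ringKrullDim R = (N : ℕ))
    (x : R →ₐ[ℂ] k) {p a : R} (hp : Prime p) (hpx : x p = 0) (hax : x a = 0) (hpa : ¬ p ∣ a) :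
    ∃ (s : ℕ) (g : MvPolynomial (Fin s) ℂ →ₐ[ℂ] x.range), s + 2 ≤ N ∧ Function.Injective g ∧
      g.toRingHom.IsIntegral := by
  have hft : Algebra.FiniteType ℂ x.range :=
    Algebra.FiniteType.of_surjective x.rangeRestrict x.rangeRestrict_surjective
  obtain ⟨s, g, ginj, gint⟩ := exists_integral_inj_algHom_of_fg ℂ x.range
  refine ⟨s, g, ?_, ginj, gint⟩
  let := g.toRingHom.toAlgebra
  have hint : Algebra.IsIntegral (MvPolynomial (Fin s) ℂ) x.range := ⟨gint⟩
  have h1 := Pool.Agent.Helper96.DT.dim_le (MvPolynomial (Fin s) ℂ) x.range ginj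
  rw [MvPolynomial.ringKrullDim_of_isNoetherianRing, ringKrullDim_eq_zero_of_field] at h1
  simp only [Nat.card_eq_fintype_card, Fintype.card_fin, zero_add] at h1
  -- the chain
  have hpI : (Ideal.span {p}).IsPrime := (Ideal.span_singleton_prime hp.ne_zero).2 hp
  let A1 := R ⧸ Ideal.span {p}
  let q1 : A1 →+* x.range := Ideal.Quotient.lift (Ideal.span {p}) (x.rangeRestrict : R →+* x.range) (by
    intro r hr
    rw [Ideal.mem_span_singleton] at hr
    obtain ⟨c, rfl⟩ := hr
    apply Subtype.ext
    change x (p * c) = 0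
    rw [map_mul, hpx, zero_mul])
  let a1 : A1 := Ideal.Quotient.mk _ a
  let q2 : (A1 ⧸ Ideal.span {a1}) →+* x.range := Ideal.Quotient.lift (Ideal.span {a1}) q1 (by
    intro r hr
    rw [Ideal.mem_span_singleton] at hr
    obtain ⟨c, rfl⟩ := hr
    rw [map_mul]
    have : q1 a1 = 0 := by
      apply Subtype.ext
      change x a = 0
      exact hax
    rw [this, zero_mul])
  have hq2 : Function.Surjective q2 := by
    intro y
    obtain ⟨r, hr⟩ := x.rangeRestrict_surjective y
    exact ⟨Ideal.Quotient.mk _ (Ideal.Quotient.mk _ r), hr⟩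
  have h2 : ringKrullDim x.range ≤ ringKrullDim (A1 ⧸ Ideal.span {a1}) :=
    ringKrullDim_le_of_surjective q2 hq2
  have ha1 : a1 ∈ nonZeroDivisors A1 := by
    rw [mem_nonZeroDivisors_iff_ne_zero]
    intro h
    apply hpa
    rw [← Ideal.mem_span_singleton]
    exact Ideal.Quotient.eq_zero_iff_mem.1 h
  have h3 := ringKrullDim_quotient_succ_le_of_nonZeroDivisor ha1
  have h4 := ringKrullDim_quotient_succ_le_of_nonZeroDivisor
    (mem_nonZeroDivisors_iff_ne_zero.2 hp.ne_zero)
  have h5 : ((s : ℕ) : WithBot ℕ∞) + 1 + 1 ≤ (N : ℕ) := by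
    rw [← hdim]
    refine le_trans ?_ h4
    gcongr
    refine le_trans ?_ h3
    gcongr
    exact h1.trans h2
  have h6 : s + 1 + 1 ≤ N := by exact_mod_cast h5
  omega

/-- The tangent space at such a point is too small. -/
lemma finite_type_bound [IsDomain R] (C : Core 𝒜 br) {n : ℕ}
    (hdim : ringKrullDim R = (2 * n : ℕ)) {H : R →ₐ[ℂ] k[X]} (t : k)
    (hs : Pool.Agent.Helper4.LE.SubAt H t) {x : R →ₐ[ℂ] k} (hx : ∀ r, x r = (H r).eval t)
    (hen : EN 𝒜 x) {p a : R} (hp : Prime p) (hpx : x p = 0) (hax : x a = 0) (hpa : ¬ p ∣ a) :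
    False := by
  classical
  obtain ⟨s, g, hsN, ginj, gint⟩ := norm_two C.fg hdim x hp hpx hax hpa
  obtain ⟨hfin, hrk⟩ := Pool.Agent.Helper98.DP.rk C hdim hen
  -- the velocity
  let v : R →ₗ[ℂ] k :=
    { toFun := fun r => (derivative (H r)).eval t
      map_add' := fun a b => by rw [map_add, derivative_add, eval_add]
      map_smul' := fun c a => by rw [map_smul, derivative_smul, RingHom.id_apply, eval_smul] }
  -- the derivations which vanish on the kernel
  let U : Submodule k (R →ₗ[ℂ] k) :=
    { carrier := {δ | δ ∈ E0 (x : R → k) ∧ ∀ r, x r = 0 → δ r = 0}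
      zero_mem' := ⟨Submodule.zero_mem _, fun r _ => rfl⟩
      add_mem' := fun {δ δ'} h h' => ⟨Submodule.add_mem _ h.1 h'.1, fun r hr => by
        rw [LinearMap.add_apply, h.2 r hr, h'.2 r hr, add_zero]⟩
      smul_mem' := fun c δ h => ⟨Submodule.smul_mem _ c h.1, fun r hr => by
        rw [LinearMap.smul_apply, h.2 r hr, smul_zero]⟩ }
  have hUle : U ≤ E0 (x : R → k) := fun δ h => h.1
  have hUfin : Module.Finite k U := by
    have hfin' : FiniteDimensional k (E0 (x : R → k)) := hfin
    exact Submodule.finiteDimensional_of_le hUle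
  have hle : E0 (x : R → k) ≤ U ⊔ Submodule.span k {v} := by
    intro δ hδ
    obtain ⟨D, mu, hD⟩ := hs δ (fun a b => by
      rw [← hx, ← hx]
      exact hδ a b)
    have h1 : δ = (D.toLinearMap ∘ₗ x.toLinearMap) + (mu - D t) • v := by
      ext1 r
      have h2 := Pool.Agent.Helper4.LE.chain D (H r) t
      rw [hD r, LinearMap.add_apply, LinearMap.smul_apply]
      change _ = D (x r) + (mu - D t) * (derivative (H r)).eval t
      rw [hx, h2]
      ring
    rw [h1]
    apply Submodule.add_mem_sup
    · refine ⟨fun a b => ?_, fun r hr => ?_⟩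
      · change D (x (a * b)) = x a * D (x b) + x b * D (x a)
        rw [map_mul, Derivation.leibniz, smul_eq_mul, smul_eq_mul]
      · change D (x r) = 0
        rw [hr, map_zero]
    · exact Submodule.smul_mem _ _ (Submodule.mem_span_singleton_self v)
  -- the values on the variables
  have hsur := x.rangeRestrict_surjective
  let y : Fin s → R := fun j => Function.surjInv hsur (g (MvPolynomial.X j))
  have hy : ∀ j, x.rangeRestrict (y j) = g (MvPolynomial.X j) := fun j =>
    Function.surjInv_eq hsur _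
  let ev : U →ₗ[k] (Fin s → k) :=
    { toFun := fun δ j => δ.1 (y j)
      map_add' := fun _ _ => rfl
      map_smul' := fun _ _ => rfl }
  have hev : Function.Injective ev := by
    rw [injective_iff_map_eq_zero]
    intro δ hδ
    have hker : ∀ r r', x.rangeRestrict r = x.rangeRestrict r' → δ.1 r = δ.1 r' := by
      intro r r' h
      have h1 : x (r - r') = 0 := by
        have := congrArg Subtype.val h
        rw [map_sub, sub_eq_zero]
        exact this
      have h2 := δ.2.2 _ h1
      rw [map_sub, sub_eq_zero] at h2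
      exact h2
    let δ' : x.range →ₗ[ℂ] k :=
      { toFun := fun z => δ.1 (Function.surjInv hsur z)
        map_add' := fun z w => by
          rw [← map_add]
          apply hker
          rw [map_add, Function.surjInv_eq hsur, Function.surjInv_eq hsur,
            Function.surjInv_eq hsur]
        map_smul' := fun c z => by
          rw [RingHom.id_apply, ← map_smul]
          apply hker
          rw [map_smul, Function.surjInv_eq hsur, Function.surjInv_eq hsur] }
    have hδ'1 : ∀ r, δ' (x.rangeRestrict r) = δ.1 r := by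
      intro r
      apply hker
      rw [Function.surjInv_eq hsur]
    have hδ'der : IsDer x.range.val δ' := by
      refine ⟨fun z w => ?_⟩
      obtain ⟨z, rfl⟩ := hsur z
      obtain ⟨w, rfl⟩ := hsur w
      rw [← map_mul, hδ'1, hδ'1, hδ'1]
      exact δ.2.1 z w
    have h3 := Pool.Agent.Helper96.DT.der_zero g ginj gint (x := x.range.val)
      Subtype.val_injective δ' hδ'der (by
        intro j
        rw [← hy, hδ'1]
        exact congrFun hδ j)
    apply Subtype.ext
    ext1 r
    rw [← hδ'1, h3]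
    rfl
  have h1 : Module.finrank k U ≤ s := by
    have := LinearMap.finrank_le_finrank_of_injective hev
    rwa [Module.finrank_fin_fun] at this
  have h2 : Module.finrank k (Submodule.span k {v} : Submodule k (R →ₗ[ℂ] k)) ≤ 1 :=
    (finrank_span_le_card ({v} : Set (R →ₗ[ℂ] k))).trans (by simp)
  have h3 : Module.finrank k (E0 (x : R → k)) ≤ Module.finrank k U + 1 := by
    have hf : Module.Finite k (Submodule.span k {v} : Submodule k (R →ₗ[ℂ] k)) := inferInstance
    have h4 := Submodule.finrank_mono hle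
    have h5 := Submodule.finrank_add_le_finrank_add_finrank U (Submodule.span k {v})
    omega
  omega

/-- CD. -/
theorem codim [IsAlgClosed k] [IsDomain R] [UniqueFactorizationMonoid R] (C : Core 𝒜 br) {n : ℕ}
    (hdim : ringKrullDim R = (2 * n : ℕ)) {F G : R →ₐ[ℂ] k[X]} (hF : IsCurve 𝒜 k 1 F)
    (hG : IsCurve 𝒜 k 1 G)
    (hrev : ∀ d, ∀ a ∈ 𝒜 d, ∀ i j, i + j = d → (F a).coeff i = (G a).coeff j)
    (hsF : ∀ t, Pool.Agent.Helper4.LE.SubAt F t) (hsG : ∀ t, Pool.Agent.Helper4.LE.SubAt G t)
    {d : ℕ} (hd : 0 < d) {a b : R} (ha : a ∈ 𝒜 d) (hb : b ∈ 𝒜 d) (hb0 : b ≠ 0)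
    (hcop : ∀ p, Prime p → p ∣ a → ¬ p ∣ b) {c : k} (hc : F a = Polynomial.C c * F b) : False := by
  have key : ∀ (H : R →ₐ[ℂ] k[X]), IsCurve 𝒜 k 1 H → (∀ t, Pool.Agent.Helper4.LE.SubAt H t) →
      ∀ t, (H a).eval t = 0 → (H b).eval t = 0 → False := by
    intro H hH hsH t h1 h2
    let x : R →ₐ[ℂ] k := ((Polynomial.aeval t : k[X] →ₐ[k] k).restrictScalars ℂ).comp H
    have hx : ∀ r, x r = (H r).eval t := by
      intro r
      change Polynomial.aeval t (H r) = _
      rw [Polynomial.coe_aeval_eq_eval]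
    have hen : EN 𝒜 x := by
      obtain ⟨e, he, r, hr, hne⟩ := hH.off t
      unfold EN
      refine Ideal.eq_top_of_isUnit_mem _ (Ideal.subset_span ⟨e, he, r, hr, rfl⟩) ?_
      rw [hx]
      exact isUnit_iff_ne_zero.2 hne
    have hbx : x b = 0 := by rw [hx, h2]
    have hbu : ¬ IsUnit b := fun hu => by
      have := hu.map x
      rw [hbx] at this
      exact not_isUnit_zero this
    obtain ⟨p, hp, hpb, hpx⟩ : ∃ p, Prime p ∧ p ∣ b ∧ x p = 0 := by
      have hprod := UniqueFactorizationMonoid.factors_prod hb0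
      have h3 : x (UniqueFactorizationMonoid.factors b).prod = 0 := by
        obtain ⟨w, hw⟩ := hprod.symm
        rw [← hw, map_mul, hbx, zero_mul]
      rw [map_multiset_prod, Multiset.prod_eq_zero_iff, Multiset.mem_map] at h3
      obtain ⟨p, hp, hpx⟩ := h3
      exact ⟨p, UniqueFactorizationMonoid.prime_of_factor p hp,
        UniqueFactorizationMonoid.dvd_of_mem_factors hp, hpx⟩
    exact finite_type_bound C hdim t (hsH t) hx hen hp hpx (by rw [hx, h1])
      (fun h => hcop p hp h hpb)
  by_cases hdeg : (F b).degree = 0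
  · have h1 : (F b).coeff d = 0 := by
      apply coeff_eq_zero_of_degree_lt
      rw [hdeg]
      exact_mod_cast hd
    refine key G hG hsG 0 ?_ ?_
    · rw [← coeff_zero_eq_eval_zero, ← hrev d a ha d 0 (by omega), hc, coeff_C_mul, h1, mul_zero]
    · rw [← coeff_zero_eq_eval_zero, ← hrev d b hb d 0 (by omega), h1]
  · obtain ⟨t, ht⟩ := IsAlgClosed.exists_root (F b) hdeg
    refine key F hF hsF t ?_ ht
    rw [hc, eval_mul, ht, mul_zero]

end Pool.Agent.Helper27.OLB
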